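import Pool.Agent.Helper93.TLE.StB7

/-!
# Project TL, module B3b7: level 49 with signs

The values at words of the symbols of level `49` (twisted by the sign character) lie in a space of dimension three.
-/

set_option autoImplicit false

namespace Pool.Agent.Helper36.TLE

open Pool.Agent.Helper14.CV (Homog EqC act Tl act_act act_one)
open Pool.Agent.Helper28.WK (Tw evw)
open Pool.Agent.Helper14.W5 (Tw_add Tw_smul)
open Pool.Agent.Helper4.TL Pool.Agent.Helper93.TLE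

private theorem hn_W (hA : SEAvg) {G : ℤ → ℤ → ℂ} (hG : SymE 7 0 2 G) :
    SymE 7 0 2 (act 0 (-1) 49 0 G) := by
  have h := (hA 7 (by norm_num) (by norm_num) 2 G le_rfl hG).2.2.2.1
  have e : (((7 : ℕ) : ℤ)) ^ 2 = 49 := by norm_num
  rwa [e] at h

private theorem hn_S (hA : SEAvg) {G : ℤ → ℤ → ℂ} (hG : SymE 7 0 2 G) :
    SymE 7 0 2 (act (-1) 0 0 1 G) :=
  (hA 7 (by norm_num) (by norm_num) 2 G le_rfl hG).2.2.2.2

private theorem evw_add (ls : List ℕ) (G H : ℤ → ℤ → ℂ) :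
    evw 2 ls (G + H) = evw 2 ls G + evw 2 ls H := by
  simp only [evw, Tw_add, Pi.add_apply]; ring

private theorem evw_smul (ls : List ℕ) (s : ℂ) (G : ℤ → ℤ → ℂ) :
    evw 2 ls (s • G) = s * evw 2 ls G := by
  simp only [evw, Tw_smul, Pi.smul_apply, smul_eq_mul]; ring

private theorem evw_neg (ls : List ℕ) (G : ℤ → ℤ → ℂ) : evw 2 ls (-G) = -evw 2 ls G := by
  have := evw_smul ls (-1) G
  rw [neg_one_smul] at this
  rw [this]; ring

private theorem Tw_congr {G H : ℤ → ℤ → ℂ} (h : EqC G H) :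
    ∀ ls : List ℕ, OkE 7 ls → EqC (Tw 2 ls G) (Tw 2 ls H) := by
  intro ls
  induction ls with
  | nil => intro _; exact h
  | cons l ls ih =>
    intro ho
    exact (ih fun x hx => ho x (List.mem_cons_of_mem _ hx)).Tl
      (ho l List.mem_cons_self).1.pos 2

private theorem evw_congr {G H : ℤ → ℤ → ℂ} (h : EqC G H) (ls : List ℕ) (ho : OkE 7 ls) :
    evw 2 ls G = evw 2 ls H :=
  (Tw_congr h ls ho).diff (Or.inl one_ne_zero) (Or.inr one_ne_zero)

/-- The (four times) projected symbol `(G - G∘W) + (G - G∘W)∘*`. -/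
private def Pr (G : ℤ → ℤ → ℂ) : ℤ → ℤ → ℂ :=
  (G - act 0 (-1) 49 0 G) + act (-1) 0 0 1 (G - act 0 (-1) 49 0 G)

private theorem Pr_spec (hA : SEAvg) (hEv : SEEv) (G : ℤ → ℤ → ℂ) (hG : SymE 7 0 2 G) :
    SymE 7 0 2 (Pr G) ∧ EqC (act 0 (-1) 49 0 (Pr G)) (-Pr G) ∧
      EqC (act (-1) 0 0 1 (Pr G)) (Pr G) ∧
      ∀ ls : List ℕ, OkE 7 ls → evw 2 ls (Pr G) = 4 * evw 2 ls G := by
  have hn := hn_W hA hG
  have e49 : (((7 : ℕ) : ℤ)) ^ 2 = 49 := by norm_num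
  have hev := fun ls ho => (hEv 7 (by norm_num) (by norm_num) ℂ _ 2 G hG ls ho).1
  rw [e49] at hev
  obtain ⟨H, hH⟩ : ∃ H : ℤ → ℤ → ℂ, H = G - act 0 (-1) 49 0 G := ⟨_, rfl⟩
  have hHev : ∀ ls : List ℕ, OkE 7 ls → evw 2 ls H = 2 * evw 2 ls G := by
    intro ls ho
    rw [hH, sub_eq_add_neg, evw_add, evw_neg, hev ls ho]
    ring
  have hHS : SymE 7 0 2 H := by
    rw [hH, sub_eq_add_neg]
    exact SymE.add hG (SymE.neg hn)
  have hWW : EqC (act 0 (-1) 49 0 (act 0 (-1) 49 0 G)) G := by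
    rw [act_act]
    have := hG.1.scale (a := 1) (b := 0) (c := 0) (d := 1) (-49) (by norm_num) (by norm_num)
    rw [act_one] at this
    norm_num at this ⊢
    exact this
  have hHW : EqC (act 0 (-1) 49 0 H) (-H) := by
    have e1 : act 0 (-1) 49 0 H = act 0 (-1) 49 0 G - act 0 (-1) 49 0 (act 0 (-1) 49 0 G) := by
      rw [hH]; rfl
    have e2 : -H = act 0 (-1) 49 0 G - G := by
      rw [hH]; abel
    rw [e1, e2]
    exact (Pool.Agent.Helper14.CV.EqC.refl _).sub hWW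
  have hHst := hn_S hA hHS
  have hHevst := fun ls ho => (hEv 7 (by norm_num) (by norm_num) ℂ _ 2 H hHS ls ho).2
  have hE : Pr G = H + act (-1) 0 0 1 H := by rw [hH]; rfl
  refine ⟨?_, ?_, ?_, ?_⟩
  · rw [hE]
    exact SymE.add hHS hHst
  · have a1 : act 0 (-1) 49 0 (Pr G) = act 0 (-1) 49 0 H +
        act 0 (-1) 49 0 (act (-1) 0 0 1 H) := by
      rw [hE]; rfl
    have a2 : EqC (act 0 (-1) 49 0 (act (-1) 0 0 1 H))
        (act (-1) 0 0 1 (act 0 (-1) 49 0 H)) := by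
      refine Pool.Agent.Helper14.CV.EqC.of_eq fun p q hpq => ?_
      simp only [act]
      have := hHS.1 (-1) q (49 * p) (by norm_num) (by omega)
      norm_num at this ⊢
      exact this.symm
    have a3 : EqC (act (-1) 0 0 1 (act 0 (-1) 49 0 H)) (act (-1) 0 0 1 (-H)) :=
      hHW.act (by norm_num)
    have a4 : -Pr G = -H + act (-1) 0 0 1 (-H) := by
      rw [hE, neg_add]; rfl
    rw [a1, a4]
    exact hHW.add (a2.trans a3)
  · refine Pool.Agent.Helper14.CV.EqC.of_eq fun p q _ => ?_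
    rw [hE]
    simp only [act, Pi.add_apply]
    ring_nf
  · intro ls ho
    rw [hE, evw_add, hHevst ls ho, hHev ls ho]
    ring

/-- The three values. -/
private noncomputable def Th : XSE 7 2 →ₗ[ℂ] (Fin 3 → ℂ) where
  toFun G := ![Pr G 1 0 - Pr G 1 7, Pr G 1 7 - Pr G 4 21, Pr G 4 21 - Pr G 2 7]
  map_add' G H := by
    funext i
    fin_cases i <;>
      simp [Pr, act, Submodule.coe_add, Pi.add_apply, Pi.sub_apply] <;> ring
  map_smul' s G := by
    funext i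
    fin_cases i <;>
      simp [Pr, act, Pi.add_apply, Pi.sub_apply, Pi.smul_apply] <;> ring

private theorem ker_le (hA : SEAvg) (hEv : SEEv) (hB : Bs7) (G : XSE 7 2) (h : Th G = 0) :
    evLE 7 (G : ℤ → ℤ → ℂ) = 0 := by
  have hG : SymE 7 0 2 (G : ℤ → ℤ → ℂ) := G.2
  obtain ⟨h1, h2, h3, h4⟩ := Pr_spec hA hEv G hG
  have ha : Pr (G : ℤ → ℤ → ℂ) 1 0 - Pr (G : ℤ → ℤ → ℂ) 1 7 = 0 := congrFun h 0
  have hb : Pr (G : ℤ → ℤ → ℂ) 1 7 - Pr (G : ℤ → ℤ → ℂ) 4 21 = 0 := congrFun h 1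
  have hb' : Pr (G : ℤ → ℤ → ℂ) 4 21 - Pr (G : ℤ → ℤ → ℂ) 2 7 = 0 := congrFun h 2
  have e49 : (7 : ℤ) ^ 2 = 49 := by norm_num
  have hc := hB (Pr G) h1 (by rw [e49]; exact h2) h3 (sub_eq_zero.mp ha) (sub_eq_zero.mp hb)
    (sub_eq_zero.mp hb')
  funext ls
  by_cases ho : OkE 7 ls
  · have e : evLE 7 (G : ℤ → ℤ → ℂ) ls = evw 2 ls (G : ℤ → ℤ → ℂ) := if_pos ho
    rw [e, Pi.zero_apply]
    have h5 := evw_congr hc ls ho
    have h6 : evw 2 ls (0 : ℤ → ℤ → ℂ) = 0 := by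
      have := evw_smul ls (0 : ℂ) (0 : ℤ → ℤ → ℂ)
      rw [zero_smul, zero_mul] at this
      exact this
    rw [h4 ls ho, h6] at h5
    exact (mul_eq_zero.mp h5).resolve_left (by norm_num)
  · exact if_neg ho

/-- B3b for `p = 7`, `D = 3`. -/
theorem hB3b7 : SEB3b7 := by
  intro hA hEv hB
  obtain ⟨g, hg⟩ := LinearMap.exists_rightInverse_of_surjective Th.rangeRestrict
    (LinearMap.range_rangeRestrict Th)
  obtain ⟨ψ, hψ⟩ := LinearMap.exists_extend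
    (((evLE 7).comp (XSE 7 2).subtype).comp g)
  refine ⟨fun i => ψ (fun j => if i = j then 1 else 0), fun G hG => ?_⟩
  obtain ⟨X, hX⟩ : ∃ X : XSE 7 2, (X : ℤ → ℤ → ℂ) = G := ⟨⟨G, hG⟩, rfl⟩
  refine ⟨Th X, fun ls ho => ?_⟩
  have h1 : Th (g (Th.rangeRestrict X)) = Th X := by
    have := congrArg (fun f : _ →ₗ[ℂ] _ => ((f (Th.rangeRestrict X) : LinearMap.range Th) : Fin 3 → ℂ)) hg
    simpa using this
  have h2 : evLE 7 ((X - g (Th.rangeRestrict X) : XSE 7 2) : ℤ → ℤ → ℂ) = 0 :=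
    ker_le hA hEv hB _ (by rw [map_sub, h1, sub_self])
  have h3 : evLE 7 (X : ℤ → ℤ → ℂ) = ψ (Th X) := by
    rw [Submodule.coe_sub, map_sub, sub_eq_zero] at h2
    rw [h2]
    have := congrArg (fun f : _ →ₗ[ℂ] _ => f (Th.rangeRestrict X)) hψ
    exact this.symm
  have h4 : ψ (Th X) = ∑ i, Th X i • ψ (fun j => if i = j then 1 else 0) :=
    LinearMap.pi_apply_eq_sum_univ ψ (Th X)
  have h5 : evLE 7 (X : ℤ → ℤ → ℂ) ls = evw 2 ls (X : ℤ → ℤ → ℂ) := if_pos ho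
  rw [← hX, ← h5, h3, h4, Finset.sum_apply]
  rfl

end Pool.Agent.Helper36.TLE
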